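import Pool.Agent.Q125.MS.Can
import Pool.Agent.Q125.MS.Mo2
import Pool.Agent.Q150.MS.MO4
import Pool.Agent.Q208.MS.HZZ
import Pool.Agent.Q224.MS.Asm
import Pool.Agent.Q224.MS.Kur
import Pool.Agent.Q241.MS.NEG
import Pool.Agent.Q241.MS.PD
import Pool.Agent.Q241.MS.TAU
import Pool.Agent.Q96.MS.SPL

/-!
# Project MS: the Manickam–Miklós–Singhi inequality for `n ≥ 10 k`
-/

set_option autoImplicit false

namespace Pool.Agent.Q113.MS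

open Finset

theorem t_MO2 : S_MO2 := Pool.Agent.Q125.MS.t_MO2
theorem t_MO4 : S_MO4 := Pool.Agent.Q150.MS.t_MO4
theorem t_KUR1 : S_KUR1 := Pool.Agent.Q224.MS.t_KUR1 t_MO2 t_MO4
theorem t_KUR2 : S_KUR2 := Pool.Agent.Q224.MS.t_KUR2 t_MO2 t_MO4
theorem t_HZZ : S_HZZ := Pool.Agent.Q208.MS.t_HZZ
theorem t_NDL : S_NDL := Pool.Agent.Q208.MS.t_NDL t_MO2 t_KUR2 t_HZZ
theorem t_WMM : S_WMM := Pool.Agent.Q208.MS.t_WMM t_MO2 t_KUR1 t_HZZ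
theorem t_CAN : S_CAN := Pool.Agent.Q125.MS.t_CAN t_MO2
theorem t_LT : S_LT := Pool.Agent.Q125.MS.t_LT t_CAN
theorem t_HALF : S_HALF := Pool.Agent.Q125.MS.t_HALF t_CAN
theorem t_SPL : S_SPL := Pool.Agent.Q96.MS.t_SPL
theorem t_DC : S_DC := Pool.Agent.Q96.MS.t_DC
theorem t_PDW : S_PDW := Pool.Agent.Q96.MS.t_PDW t_SPL t_LT
theorem t_TAU : S_TAU := Pool.Agent.Q241.MS.t_TAU t_LT t_HALF
theorem t_PD : S_PD := Pool.Agent.Q241.MS.t_PD t_SPL t_LT t_DC t_TAU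
theorem t_NEG : S_NEG := Pool.Agent.Q241.MS.t_NEG t_NDL t_WMM t_LT
theorem mmc9 : MMC 9 (17 / 20) := Pool.Agent.Q224.MS.t_MED t_NDL t_PDW t_NEG
theorem mmc10 : MMC 10 1 := Pool.Agent.Q224.MS.t_MAIN t_NDL t_PD t_NEG mmc9

/-- **The Manickam–Miklós–Singhi inequality for `n ≥ 10 k`.** -/
theorem mms10 (α : Type) [DecidableEq α] (V : Finset α) (k : ℕ) (x : α → ℝ) (hk : 1 ≤ k)
    (hV : 10 * k ≤ V.card) (hx : 0 ≤ ∑ i ∈ V, x i) : (V.card - 1).choose (k - 1) ≤ NN V k x :=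
  Pool.Agent.Q224.MS.t_FIN mmc10 α V k x hk hV hx

end Pool.Agent.Q113.MS
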