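import Mathlib

/-!
# Project MS: the Manickam–Miklós–Singhi inequality for `n ≥ 10 k`

For real numbers `x_i` (`i ∈ V`, `|V| = n ≥ 10 k`) with sum `≥ 0`, at least `C(n-1,k-1)` of the `k`-subsets of `V`
have a nonnegative sum.

Every `S_X : Prop` is a statement; the docstring gives its complete proof. Notation in the docstrings:
`x(S) = ∑ i ∈ S, x i`, `m` or `n` is the size of the ground set, `c1 = 927/2000 = (9/4) (103/500)`.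
-/

set_option autoImplicit false

namespace Pool.Agent.Q113.MS

open Finset

/-- the number of `k`-subsets of `V` with nonnegative `x`-sum -/
noncomputable def NN {α : Type} [DecidableEq α] (V : Finset α) (k : ℕ) (x : α → ℝ) : ℕ :=
  ((V.powersetCard k).filter (fun S => 0 ≤ ∑ i ∈ S, x i)).card

/-- the inequality with constant `κ` for ground sets of size at least `c k` -/
def MMC (c : ℕ) (κ : ℝ) : Prop := ∀ (α : Type) [DecidableEq α] (V : Finset α) (k : ℕ) (x : α → ℝ),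
  2 ≤ k → c * k ≤ V.card → 0 ≤ ∑ i ∈ V, x i →
  κ * (k : ℝ) * (V.card.choose k : ℝ) ≤ (V.card : ℝ) * (NN V k x : ℝ)

/-- the one-sided Chebyshev bound `v/(v+d²)` -/
noncomputable def qt (v d : ℝ) : ℝ := v / (v + d ^ 2)

/-! ## Moments -/

/-- MO2 (second moment of a random `k`-subset sum of a zero-sum vector). Expand the square and count:
`∑_S z(S)² = ∑_i z_i² #{S ∋ i} + ∑_{i≠j} z_i z_j #{S ∋ i,j} = C(m-1,k-1) Q + C(m-2,k-2) (0 - Q)`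
(`∑_{i≠j} z_i z_j = (∑ z)² - Q`; for `k = 1` there is no pair term), and
`C(m-1,k-1) = (k/m) C(m,k)`, `C(m-2,k-2) = k(k-1)/(m(m-1)) C(m,k)`. -/
def S_MO2 : Prop := ∀ (α : Type) [DecidableEq α] (V : Finset α) (k : ℕ) (z : α → ℝ),
  1 ≤ k → k ≤ V.card → 2 ≤ V.card → ∑ i ∈ V, z i = 0 →
  ∑ S ∈ V.powersetCard k, (∑ i ∈ S, z i) ^ 2 =
    (V.card.choose k : ℝ) * (((k : ℝ) * ((V.card : ℝ) - k)) / ((V.card : ℝ) * ((V.card : ℝ) - 1))) *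
      ∑ i ∈ V, z i ^ 2

/-- MO4 (fourth moment). With `Q4 = ∑ z_i⁴`, `Q = ∑ z_i²`, `∑ z_i = 0`, `m = |V| ≥ 4`:
`∑_S z(S)⁴ = C(m,k) · k(m-k)/(m(m-1)(m-2)(m-3)) · (Q4 (m(m+1) - 6k(m-k)) + 3 Q² (k-1)(m-k-1))`.
Proof: expand `z(S)⁴ = ∑_{(a,b,c,d) ∈ S⁴} z_a z_b z_c z_d` and sort by the coincidence pattern. With
`P_j = #{S ⊇ J}/C(m,k) = k(k-1)…(k-j+1)/(m(m-1)…(m-j+1))` for `|J| = j`:
all equal: `P_1 Q4`; type (3,1): `4 P_2 ∑_{i≠j} z_i³ z_j = -4 P_2 Q4`; type (2,2): `3 P_2 (Q² - Q4)`; type (2,1,1):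
`6 P_3 ∑_{distinct} z_i² z_j z_l = 6 P_3 (2 Q4 - Q²)`; all distinct: `P_4 (3 Q² - 6 Q4)`. (Alternatively prove it by
induction on `V` for arbitrary `z` with all power sums, or via `MO2`-like double counting.) -/
def S_MO4 : Prop := ∀ (α : Type) [DecidableEq α] (V : Finset α) (k : ℕ) (z : α → ℝ),
  1 ≤ k → k ≤ V.card → 4 ≤ V.card → ∑ i ∈ V, z i = 0 →
  ∑ S ∈ V.powersetCard k, (∑ i ∈ S, z i) ^ 4 =
    (V.card.choose k : ℝ) * (((k : ℝ) * ((V.card : ℝ) - k)) /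
      ((V.card : ℝ) * ((V.card : ℝ) - 1) * ((V.card : ℝ) - 2) * ((V.card : ℝ) - 3))) *
      ((∑ i ∈ V, z i ^ 4) * ((V.card : ℝ) * ((V.card : ℝ) + 1) - 6 * k * ((V.card : ℝ) - k)) +
        3 * (∑ i ∈ V, z i ^ 2) ^ 2 * (((k : ℝ) - 1) * ((V.card : ℝ) - k - 1)))

/-- KUR1, the crude kurtosis bound: for `k ≥ 2`, `m ≥ 8k`: `C(m,k) ∑ z(S)⁴ ≤ (m/k - 1) (∑ z(S)²)²`. By `MO2`, `MO4`
and `0 ≤ Q4 ≤ Q²` (linear in `Q4`) it is enough to take `Q4 = 0` and `Q4 = Q²`: with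
`b = (k-1)(m-k-1)m(m-1)/(k(m-k)(m-2)(m-3))`, `a = (m(m+1)-6k(m-k))m(m-1)/(k(m-k)(m-2)(m-3))` one needs `3b ≤ m/k - 1`
(true as `3b ≤ 3`) and `3b + a ≤ m/k - 1`; the second one is, after clearing denominators,
`m³(k-2) - m²(2k²-7k-1) - m(2k²+12k-3) + 6k² ≥ 0` (put `m = 8k + j`, `k = 2 + i`: all coefficients are positive). -/
def S_KUR1 : Prop := ∀ (α : Type) [DecidableEq α] (V : Finset α) (k : ℕ) (z : α → ℝ),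
  2 ≤ k → 8 * k ≤ V.card → ∑ i ∈ V, z i = 0 →
  (V.card.choose k : ℝ) * ∑ S ∈ V.powersetCard k, (∑ i ∈ S, z i) ^ 4 ≤
    ((V.card : ℝ) / k - 1) * (∑ S ∈ V.powersetCard k, (∑ i ∈ S, z i) ^ 2) ^ 2

/-- KUR2, the refined kurtosis bound: for `k ≥ 2`, `m ≥ 8k`, `Q4 ≤ φ Q²`, `φ ≤ 1/2`:
`C(m,k) ∑ z(S)⁴ ≤ (3 + φ (m/k - 34/7)) (∑ z(S)²)²`. With `a, b` as in `KUR1` and `θ = Q4/Q² ≤ φ` one needs
`3b + θ a ≤ 3 + θ (m/k - 34/7)` for `0 ≤ θ ≤ 1/2`, which is linear in `θ`: `θ = 0` is `b ≤ 1`, `θ = 1/2` is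
`3b + a/2 ≤ 3 + (m/k - 34/7)/2` (both checked; clear denominators and put `m = 8k + j`, `k = 2 + i`). -/
def S_KUR2 : Prop := ∀ (α : Type) [DecidableEq α] (V : Finset α) (k : ℕ) (z : α → ℝ) (φ : ℝ),
  2 ≤ k → 8 * k ≤ V.card → 0 ≤ φ → φ ≤ 1 / 2 → ∑ i ∈ V, z i = 0 →
  ∑ i ∈ V, z i ^ 4 ≤ φ * (∑ i ∈ V, z i ^ 2) ^ 2 →
  (V.card.choose k : ℝ) * ∑ S ∈ V.powersetCard k, (∑ i ∈ S, z i) ^ 4 ≤
    (3 + φ * ((V.card : ℝ) / k - 34 / 7)) * (∑ S ∈ V.powersetCard k, (∑ i ∈ S, z i) ^ 2) ^ 2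

/-- HZZ (He–Zhang–Zhang). For `v > 0`: `1[x ≥ 0] ≥ (103/500) (2 (x/v) + 3 (x/v)² - (x/v)⁴)`: for `t = x/v < 0`
`2t + 3t² - t⁴ = -t (t+1)² (t-2) ≤ 0`, and for `t ≥ 0`: `500/103 - 2t - 3t² + t⁴ > 0` (the minimum of the left side is at
`t = (1+√3)/2`; a sum of squares: `t⁴ - 3t² - 2t + 4.8543 = (t² - 15/8)² + (3/4) (t - 4/3)² + …`, or `nlinarith`). Sum over
`Ω` with `v² = (2/3) ∑X⁴/∑X²`: `# ≥ (103/500) (3 ∑X²/v² - ∑X⁴/v⁴) = (103/500) (9/4) (∑X²)²/∑X⁴` (the term with `∑ X` is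
`≥ 0`). If `∑ X² = 0` both sides are `0`. -/
def S_HZZ : Prop := ∀ (ι : Type) [DecidableEq ι] (Ω : Finset ι) (X : ι → ℝ), 0 ≤ ∑ w ∈ Ω, X w →
  (927 / 2000 : ℝ) * (∑ w ∈ Ω, X w ^ 2) ^ 2 ≤
    ((Ω.filter (fun w => 0 ≤ X w)).card : ℝ) * ∑ w ∈ Ω, X w ^ 4

/-! ## Populations without a dominating element -/

/-- NDL. `z_i = x_i - μ`, `μ = (∑ x)/m ≥ 0`; `z(S) ≤ x(S)`, so it is enough to count the `S` with `z(S) ≥ 0`. `∑ z⁴ ≤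
φ (∑ z²)²`. `HZZ` for `Ω = powersetCard k V`, `X = z(S)` (`∑_S z(S) = 0`) and `KUR2`: with `A = ∑ z(S)²`, `K` the factor:
`c1 A² C ≤ # C ∑ z(S)⁴ ≤ # K A²`, and `A > 0` (`MO2`) unless all `z_i = 0`; in this case all `C(m,k)` sets count and `K ≥ 1`. -/
def S_NDL : Prop := ∀ (α : Type) [DecidableEq α] (V : Finset α) (k : ℕ) (x : α → ℝ) (φ : ℝ),
  2 ≤ k → 8 * k ≤ V.card → 0 ≤ φ → φ ≤ 1 / 2 → 0 ≤ ∑ i ∈ V, x i →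
  (∀ i ∈ V, (x i - (∑ j ∈ V, x j) / V.card) ^ 2 ≤
    φ * ∑ i ∈ V, (x i - (∑ j ∈ V, x j) / V.card) ^ 2) →
  (927 / 2000 : ℝ) * (V.card.choose k : ℝ) ≤ (3 + φ * ((V.card : ℝ) / k - 34 / 7)) * (NN V k x : ℝ)

/-- WMM (weak form). As `NDL` with `KUR1` instead of `KUR2`: `c1 C(m,k) ≤ (m/k - 1) NN`. -/
def S_WMM : Prop := ∀ (α : Type) [DecidableEq α] (V : Finset α) (k : ℕ) (x : α → ℝ),
  2 ≤ k → 8 * k ≤ V.card → 0 ≤ ∑ i ∈ V, x i →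
  (927 / 2000 : ℝ) * (k : ℝ) * (V.card.choose k : ℝ) ≤ ((V.card : ℝ) - k) * (NN V k x : ℝ)

/-! ## One-sided Chebyshev (Cantelli) bounds for `k`-subset sums -/

/-- CAN. `T = ∑ y`. By `MO2` for `y - T/m`: `∑_B (y(B) - kT/m)² = C(m,k) VR` with
`VR = k(m-k)/(m(m-1)) (∑y² - T²/m) ≤ v`. For `u = v/t ≥ 0`: `1[X ≤ -t] ≤ (X - u)²/(t+u)²` with `X = y(B) - kT/m`, sum:
`# ≤ C(m,k) (VR + u²)/(t+u)² ≤ C(m,k) v/(v+t²)` (`v ≥ VR ≥ 0`). -/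
def S_CAN : Prop := ∀ (α : Type) [DecidableEq α] (W : Finset α) (k : ℕ) (y : α → ℝ) (v t : ℝ),
  1 ≤ k → k ≤ W.card → 2 ≤ W.card → 0 < t →
  (((k : ℝ) * ((W.card : ℝ) - k)) / ((W.card : ℝ) * ((W.card : ℝ) - 1))) *
    (∑ i ∈ W, y i ^ 2 - (∑ i ∈ W, y i) ^ 2 / W.card) ≤ v →
  (((W.powersetCard k).filter
      (fun B => ∑ i ∈ B, y i ≤ (k : ℝ) / W.card * ∑ i ∈ W, y i - t)).card : ℝ) * (v + t ^ 2) ≤
    v * (W.card.choose k : ℝ)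

/-- LT (lower tail). `r = k/|W|`. For `|W| = 1`: `k = 1`, `r = 1`, the only set is `W`, `y(W) ≥ -T > -s`: the count is
`0`. For `|W| ≥ 2`: `T0 = ∑ y ≥ -T`; `y(B) < -s` implies `y(B) ≤ r T0 - t` with `t = s + r T0 ≥ s - r T > 0`;
the variance expression in `CAN` is `≤ r R` (`(m-k)/(m-1) ≤ 1`, `∑ y² - T0²/m ≤ ∑ (y - q)²`); `CAN` with `v = r R` and
`v/(v+t²) ≤ v/(v+(s-rT)²)`. -/
def S_LT : Prop := ∀ (α : Type) [DecidableEq α] (W : Finset α) (k : ℕ) (y : α → ℝ) (q R T s : ℝ),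
  1 ≤ k → k ≤ W.card → ∑ i ∈ W, (y i - q) ^ 2 ≤ R → -T ≤ ∑ i ∈ W, y i → (k : ℝ) / W.card * T < s →
  (((W.powersetCard k).filter (fun B => ∑ i ∈ B, y i < -s)).card : ℝ) *
      ((k : ℝ) / W.card * R + (s - (k : ℝ) / W.card * T) ^ 2) ≤
    (k : ℝ) / W.card * R * (W.card.choose k : ℝ)

/-- HALF (half of a `2k`-set). `|D| = 2k`, `d = y(D)`, `∑_D y² ≤ R ≤ d²`: the variance expression of `CAN` (for `m = 2k`)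
is `k/(2(2k-1)) (∑y² - d²/(2k)) ≤ k/(2(2k-1)) R (1 - 1/(2k)) = R/4`. `CAN` with `v = R/4`, `t = u` gives the second
bound; the first one follows by complementation (`A ↦ D \ A`). -/
def S_HALF : Prop := ∀ (α : Type) [DecidableEq α] (D : Finset α) (k : ℕ) (y : α → ℝ) (R u : ℝ),
  1 ≤ k → D.card = 2 * k → ∑ i ∈ D, y i ^ 2 ≤ R → R ≤ (∑ i ∈ D, y i) ^ 2 → 0 < u →
  ((((D.powersetCard k).filter (fun A => (∑ i ∈ D, y i) / 2 + u ≤ ∑ i ∈ A, y i)).card : ℝ) *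
      (R / 4 + u ^ 2) ≤ R / 4 * ((2 * k).choose k : ℝ)) ∧
  ((((D.powersetCard k).filter (fun A => ∑ i ∈ A, y i ≤ (∑ i ∈ D, y i) / 2 - u)).card : ℝ) *
      (R / 4 + u ^ 2) ≤ R / 4 * ((2 * k).choose k : ℝ))

/-! ## A positive dominating element -/

/-- SPL. Split the `k`-subsets of `V` according to `a ∈ S` (`S = {a} ∪ B`). -/
def S_SPL : Prop := ∀ (α : Type) [DecidableEq α] (V : Finset α) (k : ℕ) (x : α → ℝ) (a : α),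
  1 ≤ k → a ∈ V →
  NN V k x = (((V.erase a).powersetCard (k - 1)).filter (fun B => -x a ≤ ∑ i ∈ B, x i)).card +
    NN (V.erase a) k x

/-- DC (double counting of the disjoint pairs (bad `B`, good `A`)). `N = |W|`. Let `P` be the number of pairs
`(A, B)`, `A` a `k`-subset with `y(A) ≥ 0`, `B` a `(k-1)`-subset of `W \ A` with `y(B) < -M`. By the first hypothesis
`P ≥ κ C(N-k,k-1) #{B : y(B) < -M}`; by the second one (for `y(A) ≤ L`) and trivially (for `y(A) > L`)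
`P ≤ C(N-k,k-1) (δ (NN - NL) + NL)`, `NL = #{A : y(A) > L} ≤ τ NN`. So `κ #{B} ≤ (δ + (1-δ) τ) NN ≤ κ NN`
(`C(N-k,k-1) > 0`). -/
def S_DC : Prop := ∀ (α : Type) [DecidableEq α] (W : Finset α) (k : ℕ) (y : α → ℝ) (M L κ δ τ : ℝ),
  1 ≤ k → 2 * k ≤ W.card → 0 < κ → 0 ≤ δ → δ ≤ 1 → 0 ≤ L →
  (∀ B ∈ W.powersetCard (k - 1), ∑ i ∈ B, y i < -M →
    κ * ((W.card - k).choose (k - 1) : ℝ) ≤ (NN (W \ B) k y : ℝ)) →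
  (∀ A ∈ W.powersetCard k, 0 ≤ ∑ i ∈ A, y i → ∑ i ∈ A, y i ≤ L →
    ((((W \ A).powersetCard (k - 1)).filter (fun B => ∑ i ∈ B, y i < -M)).card : ℝ) ≤
      δ * ((W.card - k).choose (k - 1) : ℝ)) →
  ((((W.powersetCard k).filter (fun A => L < ∑ i ∈ A, y i)).card : ℝ) ≤ τ * (NN W k y : ℝ)) →
  δ + (1 - δ) * τ ≤ κ →
  ((W.powersetCard (k - 1)).filter (fun B => ∑ i ∈ B, y i < -M)).card ≤ NN W k y

/-- TAU (the upper tail of `y(A)` is a small part of the nonnegative sums). `N = |W|`, `r = k/(N-k)`, `w = (1-γ) ℓ`,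
`β = (1-ε)/(2(1+ε))`, `R = ψ M²`; `τa = qt (rψ) (γℓ - r(1+ℓ))`, `τb = qt (rψ) (εℓ + r(1+ℓ))`, `t3 = qt ψ w`,
`t2 = qt (ψ/4) (β w)`. If `1 - τa - τb ≤ 0` the left side is `≤ 0`. (1) Let `y(A) = a > ℓ M`. `W \ A` has `N - k`
elements, `y`-total `-(M+a)`, sum of squares `≤ R`. `LT` with `s = γ a`, `T = M + a` (`s - rT ≥ (γℓ - r(1+ℓ)) M > 0`, as
`γ > r` and `a > ℓM`): at most `τa C(N-k,k)` `k`-subsets `A'` of `W \ A` have `y(A') < -γ a`. `LT` for `-y` with `s = ε a`,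
`T = -(M+a)` (`s - rT ≥ (εℓ + r(1+ℓ)) M`): at most `τb C(N-k,k)` have `y(A') > ε a`. So at least
`(1-τa-τb) C(N-k,k)` have `-γ a ≤ y(A') ≤ ε a`. (2) Let `P` be the number of the pairs `(A, A')` of disjoint `k`-sets with
`y(A) > ℓM`, `-γ y(A) ≤ y(A') ≤ ε y(A)`; `P ≥ (1-τa-τb) C(N-k,k) #{A}`. For such a pair let `D = A ∪ A'`, `d = y(D)`:
`d ≥ (1-γ) a > w M`, `a ≥ d/(1+ε) = d/2 + β d ≥ d/2 + β w M`. For a `2k`-set `D` with `d > wM` (so `R ≤ d²`) `HALF` with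
`u = β d` gives at most `t2 C(2k,k)` such `A ⊆ D`, and with `u = d/2` at least `(1-t3) C(2k,k)` `k`-subsets `A` of `D` with
`y(A) ≥ 0`. So `(1-t3) P ≤ t2 ∑_D #{A ⊆ D : y(A) ≥ 0} ≤ t2 NN C(N-k,k)`. Divide by `C(N-k,k) > 0`. -/
def S_TAU : Prop := ∀ (α : Type) [DecidableEq α] (W : Finset α) (k : ℕ) (y : α → ℝ)
  (M ψ ℓ γ ε r : ℝ), 1 ≤ k → 2 * k ≤ W.card → 0 < M → 0 < ψ → ∑ i ∈ W, y i = -M →
  ∑ i ∈ W, y i ^ 2 ≤ ψ * M ^ 2 → 0 < ℓ → 0 < γ → γ < 1 → 0 < ε → ε < 1 →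
  r = (k : ℝ) / ((W.card : ℝ) - k) → r * (1 + ℓ) < γ * ℓ → ψ ≤ ((1 - γ) * ℓ) ^ 2 →
  (1 - qt (r * ψ) (γ * ℓ - r * (1 + ℓ)) - qt (r * ψ) (ε * ℓ + r * (1 + ℓ))) *
      (1 - qt ψ ((1 - γ) * ℓ)) *
      (((W.powersetCard k).filter (fun A => ℓ * M < ∑ i ∈ A, y i)).card : ℝ) ≤
    qt (ψ / 4) ((1 - ε) / (2 * (1 + ε)) * ((1 - γ) * ℓ)) * (NN W k y : ℝ)

/-- PD (a positive element `M = x_a` with `M² ≥ (31/100) ∑ x²`, `∑ x = 0`, `n ≥ 10 k`): at least `C(n-1,k-1)` sets.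
`W = V \ {a}`, `y(W) = -M`, `∑_W x² ≤ ψ M²`, `ψ = 69/31`. `SPL`: `NN = C(n-1,k-1) - #{B : y(B) < -M} + NN W`, so by `DC`
(`κ = 17/20`, `L = 5M`, `δ = 69/100`, `τ = 11/25`: `δ + (1-δ) τ = 0.8264 ≤ 0.85`) it remains to check the hypotheses of
`DC`. First: `W \ B` has `n - k ≥ 9k` elements and total `-M - y(B) > 0`: `MMC 9 (17/20)` and
`k C(n-k,k) = (n-k) C(n-k-1,k-1)`. Second: `W \ A` has `n-1-k` elements, total `-M-y(A) ≥ -6M`, `r = (k-1)/(n-1-k) ≤ 1/9`;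
`LT` with `k-1 ≥ 1`, `s = M`, `T = 6M`, `R = ψM²`, `q = 0`: the fraction is at most `rψ/(rψ + (1-6r)²) ≤
(ψ/9)/(ψ/9 + 1/9) = ψ/(ψ+1) = 69/100`. Third: `TAU` with `ℓ = 5`, `γ = 17/50`, `ε = 2/25`, `r = k/(n-1-k) ≤ 2/17` (`k ≥ 2`):
`qt (rψ) (5γ - 6r) ≤ 0.2095`, `qt (rψ) (5ε + 6r) ≤ ψ/(ψ + 4·6·5ε) ≤ 0.1883` (`(5ε+6r)² ≥ 4·5ε·6r`),
`qt ψ (33/10) ≤ 0.1698`, `qt (ψ/4) ((23/54) (33/10)) ≤ 0.2198`; `0.2198/(0.6022 · 0.8302) ≤ 0.4397 ≤ 11/25`. -/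
def S_PD : Prop := MMC 9 (17 / 20) → ∀ (α : Type) [DecidableEq α] (V : Finset α) (k : ℕ) (x : α → ℝ) (a : α),
  2 ≤ k → 10 * k ≤ V.card → ∑ i ∈ V, x i = 0 → a ∈ V → 0 < x a →
  (31 / 100 : ℝ) * ∑ i ∈ V, x i ^ 2 ≤ x a ^ 2 →
  (k : ℝ) * (V.card.choose k : ℝ) ≤ (V.card : ℝ) * (NN V k x : ℝ)

/-- PDW (a positive dominating element, weak form). `∑ x = 0`, `M = x_a > 0`, `φ ∑x² ≤ M²`, `ψ = 1/φ - 1`, `r ≤ 1/9` for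
`n ≥ 9k`, `r = (k-1)/(n-1)`. Only the sets containing `a`: `LT` on `W = V \ {a}` with `k-1 ≥ 1`, `s = T = M`, `R = ψM²`,
`q = 0`: at most the fraction `rψ/(rψ+(1-r)²) ≤ (ψ/9)/(ψ/9+64/81) = 9ψ/(9ψ+64)` of the `(k-1)`-subsets `B` has
`y(B) < -M`; `C(n-1,k-1) = (k/n) C(n,k)`. -/
def S_PDW : Prop := ∀ (α : Type) [DecidableEq α] (V : Finset α) (k : ℕ) (x : α → ℝ) (a : α) (φ : ℝ),
  2 ≤ k → 9 * k ≤ V.card → 0 < φ → φ ≤ 1 → ∑ i ∈ V, x i = 0 → a ∈ V → 0 < x a →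
  φ * ∑ i ∈ V, x i ^ 2 ≤ x a ^ 2 →
  (64 / (64 + 9 * (1 / φ - 1))) * (k : ℝ) * (V.card.choose k : ℝ) ≤ (V.card : ℝ) * (NN V k x : ℝ)

/-! ## A negative dominating element -/

/-- NEG (trichotomy when a negative element dominates and no positive one does). `n = |V|`, `Q = ∑ x²`, `H = -x_h > 0`,
`H² > φQ`, `V1 = V \ {h}` (total `H`), `z_i = x_i - H/(n-1)` on `V1` (zero-sum), `Q1 = Q - H²`, `Qc = ∑_{V1} z² ≤ Q1`,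
`p = k/n`, `ψ' = 1/φ' - 1`.
(A) all `z_i² ≤ φ' Qc` (`i ∈ V1`): `NDL` for `V1` (`8k ≤ n-1`), `NN V1 ≤ NN V`.
(B) some `a ∈ V1` has `z_a > 0`, `z_a² > φ' Qc`. Then `M = x_a ≥ z_a > 0`, `M² ≤ φ Q < H²`, `M < H`. `V2 = V \ {h,a}` has
total `H - M > 0`. Sets `{a} ∪ B`, `B ⊆ V2`, `|B| = k-1`: `∑_{V2} z² = Qc - z_a² ≤ ψ' z_a² ≤ ψ' M²`; `LT` with
`q = H/(n-1)`, `R = ψ'M²`, `T = 0`, `s = M`, `r = (k-1)/(n-2) ≤ p`: the number of `B` with `x(B) ≥ -M` is at least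
`C(n-2,k-1)/(1+pψ')`. Sets avoiding `h` and `a`: `WMM` for `V2` (`8k ≤ n-2`): at least
`c1 k C(n-2,k)/(n-2-k) ≥ c1 k (n-k)/(n(n-1)) C(n,k)`. As `C(n-2,k-1) = k(n-k)/(n(n-1)) C(n,k)`, the sum is at least
`C(n,k) k(n-k)/(n(n-1)) (1/(1+pψ') + c1)`.
(C) some `g ∈ V1` has `z_g < 0`, `z_g² > φ' Qc`. `V2 = V \ {h,g}`, total `T2 = -z_g + (n-2)H/(n-1)`, `Q2 = ∑_{V2} z² =
Qc - z_g²`; `φ' Q2 ≤ (1-φ') z_g²`, `Q2 ≤ (1-φ') Qc`, `H² (1-φ) ≥ φ Q1 ≥ φ Qc`; so `-z_g ≥ g2 √Q2`, `H ≥ g1 √Q2`,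
`T2² ≥ G Q2`, `G = (g1 (n-2)/(n-1) + g2)²`. `LT` on `V2` (`T = -T2`, `s = 0`, `R = Q2`, `q = H/(n-1)`,
`r = k/(n-2) ≥ p`): at least `C(n-2,k) rT2²/(Q2 + rT2²) ≥ C(n-2,k) pG/(1+pG)` `k`-subsets of `V2` have sum `≥ 0`;
`C(n-2,k) = (n-k)(n-k-1)/(n(n-1)) C(n,k)`. -/
def S_NEG : Prop := ∀ (α : Type) [DecidableEq α] (V : Finset α) (k : ℕ) (x : α → ℝ) (h : α)
  (φ φ' g1 g2 : ℝ), 2 ≤ k → 9 * k ≤ V.card → 0 < φ' → φ' ≤ φ → φ ≤ 1 / 2 → ∑ i ∈ V, x i = 0 →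
  h ∈ V → x h < 0 → φ * ∑ i ∈ V, x i ^ 2 < x h ^ 2 →
  (∀ i ∈ V, 0 < x i → x i ^ 2 ≤ φ * ∑ i ∈ V, x i ^ 2) →
  0 < g1 → 0 < g2 → g1 ^ 2 * ((1 - φ) * (1 - φ')) ≤ φ → g2 ^ 2 * (1 - φ') ≤ φ' →
  ((927 / 2000 : ℝ) * ((V.card - 1).choose k : ℝ) ≤
      (3 + φ' * (((V.card : ℝ) - 1) / k - 34 / 7)) * (NN V k x : ℝ)) ∨
  (((k : ℝ) * ((V.card : ℝ) - k)) / ((V.card : ℝ) * ((V.card : ℝ) - 1)) *
      (1 / (1 + (k : ℝ) / V.card * (1 / φ' - 1)) + 927 / 2000) * (V.card.choose k : ℝ) ≤ (NN V k x : ℝ)) ∨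
  (∃ G : ℝ, G = (g1 * (((V.card : ℝ) - 2) / ((V.card : ℝ) - 1)) + g2) ^ 2 ∧
    ((V.card : ℝ) - k) * ((V.card : ℝ) - k - 1) / ((V.card : ℝ) * ((V.card : ℝ) - 1)) *
      ((k : ℝ) / V.card * G / (1 + (k : ℝ) / V.card * G)) * (V.card.choose k : ℝ) ≤ (NN V k x : ℝ))

/-! ## Assembly -/

/-- MED. `φ = 91/200`, `φ' = 8/25`, `p = k/n ≤ 1/9`, `n ≥ 18`. WLOG `∑ x = 0` (subtract the mean; `NN` does not increase).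
If all `x_i² ≤ φQ`: `NDL`, `0.4635 n ≥ 0.85 (3k + φ (n - 34k/7))` for `n ≥ 9k` (linear). If some positive `x_a` has
`x_a² > φQ`: `PDW`, `64/(64 + 9·109/91) = 0.8558 ≥ 0.85`. Otherwise some negative `x_h` has `x_h² > φQ`: `NEG` with
`g1 = 277/250`, `g2 = 137/200`. (A) `C(n-1,k) = (n-k)/n C(n,k)`: `0.4635 (n-k) ≥ 0.85 (3k + φ' (n - 34k/7))` for `n ≥ 9k`.
(B) `(n-k)/(n-1) ≥ 8/9`, `(8/9)(1/(1 + 2.125/9) + 0.4635) ≥ 0.85`. (C) `G ≥ (g1 16/17 + g2)² ≥ 2.98`,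
`(n-k)/n ≥ 8/9`, `(n-k-1)/(n-1) ≥ 15/17`: `(8/9) (15/17) 2.98 p/(1 + 2.98/9) ≥ 0.85 p`. -/
def S_MED : Prop := S_NDL → S_PDW → S_NEG → MMC 9 (17 / 20)

/-- MAIN. `φ = 31/100`, `φ' = 9/40`, `p = k/n ≤ 1/10`, `n ≥ 20`. WLOG `∑ x = 0`. If all `x_i² ≤ φQ`: `NDL`,
`0.4635 n ≥ 3k + φ (n - 34k/7)` for `n ≥ 10k` (`10·0.1535 = 1.535 ≥ 3 - 0.31·34/7 = 1.4943`). If some positive `x_a` has
`x_a² > φQ`: `PD`. Otherwise `NEG` with `g1 = 761/1000`, `g2 = 269/500`. (A) `0.4635 (n-k) ≥ 3k + φ' (n - 34k/7)` for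
`n ≥ 10k` (`10·0.2385 = 2.385 ≥ 3.4635 - 0.225·34/7 = 2.3707`). (B) `(n-k)/(n-1) ≥ 9/10`, `ψ' = 31/9`,
`0.9 (1/(1+31/90) + 0.4635) = 1.0866 ≥ 1`. (C) `G ≥ (g1 18/19 + g2)² ≥ 1.584`, `(n-k)/n ≥ 9/10`, `(n-k-1)/(n-1) ≥ 17/19`,
`0.9 (17/19) 1.584/1.1584 = 1.101 ≥ 1` (for a larger `G` use that `G/(1+pG)` increases with `G`). -/
def S_MAIN : Prop := S_NDL → S_PD → S_NEG → MMC 9 (17 / 20) → MMC 10 1

/-- FIN. `k = 1`: some element is `≥ 0`. `k ≥ 2`: `MMC 10 1` and `k C(n,k) = n C(n-1,k-1)`. -/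
def S_FIN : Prop := MMC 10 1 → ∀ (α : Type) [DecidableEq α] (V : Finset α) (k : ℕ) (x : α → ℝ),
  1 ≤ k → 10 * k ≤ V.card → 0 ≤ ∑ i ∈ V, x i → (V.card - 1).choose (k - 1) ≤ NN V k x

end Pool.Agent.Q113.MS
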